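import Pool.Agent.Lib.FCC.Glue
import Pool.Agent.Lib.FCC.A1
import Pool.Agent.Lib.FCC.A2
import Pool.Agent.Lib.FCC.A3
import Pool.Agent.Lib.FCC.B1
import Pool.Agent.Lib.FCC.S
import Pool.Agent.Lib.FCC.CNT
import Pool.Agent.Lib.FCC.R
import Pool.Agent.Lib.FCC.X3
import Pool.Agent.Lib.FCC.COMPLETE
import Pool.Agent.Lib.FCC.FINAL
import Pool.Agent.Lib.FCC.OW
import Pool.Agent.Lib.FCC.WIND
import Pool.Agent.Lib.FCC.FILL
import Pool.Agent.Lib.FCC.LINK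
import Pool.Agent.Lib.FCC.PATHS

namespace Pool.Agent.Results.MP_dec383_lc.FccNPC

open Pool.Agent.Lib.FCC N68a2faeb

/-- HP folding on the face-centred cubic lattice is NP-complete. -/
theorem result : HPF ∈ NP ∧
    ∀ L ∈ NP, ∃ F : List Bool → List Bool, IsPolyTime F ∧ ∀ x, L x = HPF (F x) :=
  ⟨hpf_np, hpf_hard stA3 stCNT stWORD
    (fun _ hL => (x3_hard hL).imp fun _ h => ⟨h.1, fun x => ⟨⟨(h.2 x).1, (h.2 x).2.1⟩, (h.2 x).2.2⟩⟩)
    stR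
    (stSOUND stA3 stCNT
      (stB0 stA1 stA2 stA3 stWORD) (stB1 stA4) stS)
    (stCOMPLETE stA3 stCNT stWORD (stFINAL stA3) stOW stFILL stLINK
      (stPATHS stOW stAW stHALF stBALL stWIND))⟩

end Pool.Agent.Results.MP_dec383_lc.FccNPC
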