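import Pool.Agent.Lib.MP_dec383_lc.Sound4
import Pool.Agent.Lib.MP_dec383_lc.Complete
import Pool.Agent.Lib.MP_dec383_lc.NP
import Pool.Agent.Lib.MP_dec383_lc.Red

namespace Pool.Agent.Results.MP_dec383_lc.TriNPC

open Pool.Agent.Lib.MP_dec383_lc N68a2faeb

/-- HP folding on the triangular lattice is NP-complete. -/
theorem result : HP ∈ NP ∧
    ∀ L ∈ NP, ∃ F : List Bool → List Bool, IsPolyTime F ∧ ∀ x, L x = HP (F x) :=
  ⟨hp_np, hp_hard fun _ _ _ hq hB hs => ⟨complete hq hB hs, fun ⟨_, hA⟩ => sound hq hB hs hA⟩⟩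

end Pool.Agent.Results.MP_dec383_lc.TriNPC
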